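import Pool.Agent.Lib.MP_26b77b_gt.Hexagon

set_option autoImplicit false

namespace Pool.Agent.Results.MP_26b77b_gt.UniqueMaxNoLimit

open Filter Topology

/-- There is a planar convex body with a unique supporting line at each boundary point, and a
sequence of nondegenerate inscribed triangles, each obtained from the previous one by replacing
in turn Z, Y, X by the UNIQUE perimeter-maximising boundary point, such that none of the three
vertex sequences converges. -/
theorem result :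
    ∃ K : Set (EuclideanSpace ℝ (Fin 2)),
      IsCompact K ∧ Convex ℝ K ∧ (interior K).Nonempty ∧
      (∀ p ∈ frontier K, ∃! u : EuclideanSpace ℝ (Fin 2),
        ‖u‖ = 1 ∧ ∀ y ∈ K, inner ℝ u (y - p) ≤ 0) ∧
      ∃ X Y Z : ℕ → EuclideanSpace ℝ (Fin 2),
        (∀ n, X n ∈ frontier K ∧ Y n ∈ frontier K ∧ Z n ∈ frontier K) ∧
        (∀ n, AffineIndependent ℝ ![X n, Y n, Z n]) ∧
        (∀ n, ∀ W ∈ frontier K, W ≠ Z (n + 1) →
          dist (X n) (Y n) + dist (Y n) W + dist W (X n) <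
            dist (X n) (Y n) + dist (Y n) (Z (n + 1)) + dist (Z (n + 1)) (X n)) ∧
        (∀ n, ∀ W ∈ frontier K, W ≠ Y (n + 1) →
          dist (X n) W + dist W (Z (n + 1)) + dist (Z (n + 1)) (X n) <
            dist (X n) (Y (n + 1)) + dist (Y (n + 1)) (Z (n + 1)) + dist (Z (n + 1)) (X n)) ∧
        (∀ n, ∀ W ∈ frontier K, W ≠ X (n + 1) →
          dist W (Y (n + 1)) + dist (Y (n + 1)) (Z (n + 1)) + dist (Z (n + 1)) W <
            dist (X (n + 1)) (Y (n + 1)) + dist (Y (n + 1)) (Z (n + 1)) +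
              dist (Z (n + 1)) (X (n + 1))) ∧
        (¬ ∃ L, Tendsto X atTop (𝓝 L)) ∧ (¬ ∃ L, Tendsto Y atTop (𝓝 L)) ∧
        (¬ ∃ L, Tendsto Z atTop (𝓝 L)) := by
  let D := Pool.Agent.Lib.MP_26b77b_gt.hexagon
  have hcl : ∀ W ∈ frontier D.body, W ∈ D.body := fun W hW =>
    D.isCompact_body.isClosed.frontier_subset hW
  refine ⟨D.body, D.isCompact_body, D.convex_body, D.interior_nonempty,
    fun p hp => D.smooth hp, fun n => D.P (3 * n + 4), fun n => D.P (3 * n + 3),
    fun n => D.P (3 * n + 2), fun n => ⟨D.P_mem_frontier _, D.P_mem_frontier _,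
      D.P_mem_frontier _⟩, fun n => D.affineIndependent (3 * n + 2), ?_, ?_, ?_,
    D.not_tendsto 4, D.not_tendsto 3, D.not_tendsto 2⟩
  · intro n W hW hne
    beta_reduce
    have h := D.strict_max (3 * n + 3) (hcl W hW) hne
    simp only [Pool.Agent.Lib.MP_26b77b_gt.Data.f, ← dist_eq_norm] at h
    rw [dist_comm (D.P (3 * n + 3)) W, dist_comm (D.P (3 * n + 3)) (D.P (3 * (n + 1) + 2))]
    have e : 3 * (n + 1) + 2 = 3 * n + 3 + 2 := by ring
    have e' : 3 * n + 4 = 3 * n + 3 + 1 := by ring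
    rw [e, e']
    linarith
  · intro n W hW hne
    beta_reduce
    have h := D.strict_max (3 * n + 4) (hcl W hW) hne
    simp only [Pool.Agent.Lib.MP_26b77b_gt.Data.f, ← dist_eq_norm] at h
    rw [dist_comm (D.P (3 * n + 4)) W, dist_comm (D.P (3 * n + 4)) (D.P (3 * (n + 1) + 3))]
    have e : 3 * (n + 1) + 2 = 3 * n + 4 + 1 := by ring
    have e' : 3 * (n + 1) + 3 = 3 * n + 4 + 2 := by ring
    rw [e, e']
    linarith
  · intro n W hW hne
    beta_reduce
    have h := D.strict_max (3 * (n + 1) + 2) (hcl W hW) hne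
    simp only [Pool.Agent.Lib.MP_26b77b_gt.Data.f, ← dist_eq_norm] at h
    rw [dist_comm (D.P (3 * (n + 1) + 2)) W,
      dist_comm (D.P (3 * (n + 1) + 2)) (D.P (3 * (n + 1) + 4))]
    linarith

end Pool.Agent.Results.MP_26b77b_gt.UniqueMaxNoLimit
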